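import Pool.Agent.W27.FB.Stm

/-!
FN-CONV: from points of the circle to real numbers.
-/

set_option autoImplicit false

namespace Pool.Agent.W405.FN

open Pool.Agent.W27.FB Pool.Agent.W634.BQ Pool.Agent.W505.BQ

theorem conv : S_conv := by
  intro T ρ hρ
  classical
  have hπ : (0 : ℝ) < 2 * Real.pi := by positivity
  refine ⟨T.image (fun z : Circle => Complex.arg z / (2 * Real.pi)), ρ / (2 * Real.pi),
    div_pos hρ hπ, ?_⟩
  intro k hk z hz
  have h1 := hk _ (Finset.mem_image_of_mem _ hz)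
  obtain ⟨δ, hδ⟩ : ∃ δ : ℝ, δ = (k : ℝ) * (Complex.arg z / (2 * Real.pi)) -
    round ((k : ℝ) * (Complex.arg z / (2 * Real.pi))) := ⟨_, rfl⟩
  obtain ⟨n, hn⟩ : ∃ n : ℤ, n = round ((k : ℝ) * (Complex.arg z / (2 * Real.pi))) := ⟨_, rfl⟩
  rw [← hδ] at h1
  rw [← hn] at hδ
  have h2 : (k : ℝ) * Complex.arg z = 2 * Real.pi * δ + n * (2 * Real.pi) := by
    rw [hδ]
    field_simp
    ring
  have h3 : ((z ^ (k : ℤ) : Circle) : ℂ) = Complex.exp (Complex.I * ((2 * Real.pi * δ : ℝ) : ℂ)) := by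
    have e1 : (z : ℂ) = Complex.exp ((Complex.arg z : ℝ) * Complex.I) := by
      rw [← Circle.coe_exp, Circle.exp_arg]
    have e2 : ((k : ℕ) : ℂ) * (((Complex.arg z : ℝ) : ℂ) * Complex.I) =
        Complex.I * ((2 * Real.pi * δ : ℝ) : ℂ) + (n : ℂ) * (2 * Real.pi * Complex.I) := by
      have h4 := congrArg (fun r : ℝ => (r : ℂ)) h2
      push_cast at h4 ⊢
      rw [← mul_assoc, h4]
      ring
    rw [zpow_natCast, Circle.coe_pow]
    calc (z : ℂ) ^ k = (Complex.exp ((Complex.arg z : ℝ) * Complex.I)) ^ k := by rw [← e1]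
      _ = Complex.exp ((k : ℕ) * (((Complex.arg z : ℝ) : ℂ) * Complex.I)) :=
          (Complex.exp_nat_mul _ _).symm
      _ = _ := by rw [e2, Complex.exp_add, Complex.exp_int_mul_two_pi_mul_I, mul_one]
  rw [h3]
  refine lt_of_le_of_lt Real.norm_exp_I_mul_ofReal_sub_one_le ?_
  rw [Real.norm_eq_abs, abs_mul, abs_of_pos hπ]
  rw [lt_div_iff₀ hπ] at h1
  linarith

end Pool.Agent.W405.FN
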